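import Mathlib
import Pool.Agent.Run7.h988.PY.Ord

/-!
# The parity conjecture over `ℚ` and the coranks of Tate-Shafarevich groups over number fields

`E/ℚ` is an elliptic curve, `p` a prime and `F/ℚ` a finite Galois extension with group `G`. By the theorem of
T. and V. Dokchitser the parity of the `p`-infinity Selmer rank of `E/ℚ` is given by the root number; so the parity
conjecture for `E/ℚ` says that the corank of `Sha(E/ℚ)[p^∞]` is even. The theorem shows that this can be tested on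
the coranks over other subfields of `F`.
-/

set_option autoImplicit false

namespace Pool.Agent.Results.MP_577099_nt.CoranksOfSha

open Pool.Agent.H541R3.ART Run7.h988.PY

/-- The Mordell-Weil group, the `p`-infinity Selmer group and the root number of an elliptic curve `E/ℚ` along a
finite Galois extension `F/ℚ` with group `G`; the subgroup `H` stands for the field `F^H`. -/
structure Curve (p : ℕ) [Fact p.Prime] (G : Type) [Group G] [Finite G] (V : Type) [AddCommGroup V] [Module ℚ V]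
    (X : Type) [AddCommGroup X] [Module ℚ_[p] X] where
  /-- the representation of `G` on `V = E(F) ⊗ ℚ` -/
  ρ : Representation ℚ G V
  /-- the representation of `G` on `X = X_p(E/F) ⊗ ℚ_p`, where `X_p` is the dual of the `p`-infinity Selmer group -/
  ξ : Representation ℚ_[p] G X
  /-- the root number of `E/ℚ` -/
  w : ℤ
  /-- the theorem of T. and V. Dokchitser: `p`-parity over `ℚ` -/
  pparity : w = (-1) ^ Module.finrank ℚ_[p] (Representation.invariants (ξ.comp (⊤ : Subgroup G).subtype))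

variable {p : ℕ} [Fact p.Prime] {G : Type} [Group G] [Finite G] {V : Type} [AddCommGroup V] [Module ℚ V]
  {X : Type} [AddCommGroup X] [Module ℚ_[p] X]

/-- the Mordell-Weil rank of `E` over `F^H` -/
noncomputable def Curve.rank (E : Curve p G V X) (H : Subgroup G) : ℕ :=
  Module.finrank ℚ (Representation.invariants (E.ρ.comp H.subtype))

/-- the `p`-infinity Selmer rank of `E` over `F^H` -/
noncomputable def Curve.selmer (E : Curve p G V X) (H : Subgroup G) : ℕ :=
  Module.finrank ℚ_[p] (Representation.invariants (E.ξ.comp H.subtype))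

/-- the corank of the `p`-primary part of the Tate-Shafarevich group of `E` over `F^H` -/
noncomputable def Curve.sha (E : Curve p G V X) (H : Subgroup G) : ℤ := E.selmer H - E.rank H

/-- the parity conjecture for `E/ℚ` -/
def Curve.Parity (E : Curve p G V X) : Prop := (-1) ^ E.rank ⊤ = E.w

/-- the values of the character of `X_p(E/F) ⊗ ℚ_p` do not change under `g ↦ g ^ k` -/
def Curve.Mult (E : Curve p G V X) (k : ℕ) : Prop :=
  Nat.Coprime (Nat.card G) k ∧ ∀ g, E.ξ.character (g ^ k) = E.ξ.character g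

/-- **The parity conjecture and coranks over number fields.** -/
theorem result [FiniteDimensional ℚ V] [FiniteDimensional ℚ_[p] X] (τ : ℚ_[p] →+* ℂ) (E : Curve p G V X) :
    (∀ (N : Subgroup G) [N.Normal] (a k : ℕ), Group.IsSolvable N →
      (∀ g : G, (∃ b : ℕ, g ^ 2 ^ b = 1) → ∀ n ∈ N, g ^ 2 ^ a * n = n * g ^ 2 ^ a) → E.Mult k →
      (∀ q : ℕ, q.Prime → q ∣ Nat.card N → 2 ^ (a + 1) ∣ orderOf (k : ZMod q)) →
      ∀ H : Subgroup G, H ⊔ N = ⊤ → (E.Parity ↔ Even (E.sha H))) ∧
    (¬ E.Parity → ∃ U C : Subgroup G, Odd (E.sha U) ∧ (∀ U' : Subgroup G, U' < U → Even (E.sha U')) ∧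
      C ≤ U ∧ IsCyclic C ∧ Odd (Nat.card C) ∧ (∀ u ∈ U, ∀ c ∈ C, u * c * u⁻¹ ∈ C) ∧
      (∀ u ∈ U, ∃ j : ℕ, u ^ 2 ^ j ∈ C) ∧
      ∀ q : ℕ, q.Prime → q ∣ Nat.card C → ∀ k : ℕ, E.Mult k →
        ∃ m : ℕ, Odd m ∧ ∃ u ∈ U, ∀ c ∈ C, c ^ q = 1 → u * c * u⁻¹ = c ^ k ^ m) := by
  classical
  let σ : ℚ →+* ℂ := algebraMap ℚ ℂ
  let D : G → ℂ := (fun g => τ (E.ξ.character g)) - (fun g => σ (E.ρ.character g))
  have hD : Pool.Agent.W446.AS.Virt D := sub_mem (virt_char τ E.ξ) (virt_char σ E.ρ)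
  have hDk : ∀ k : ℕ, E.Mult k → ∀ g, D (g ^ k) = D g := by
    intro k hk g
    change τ (E.ξ.character (g ^ k)) - σ (E.ρ.character (g ^ k)) = _
    rw [hk.2, rat_pow σ E.ρ hk.1]
    rfl
  have hmn : ∀ H : Subgroup G, mn D H = E.sha H := by
    intro H
    have h1 : mn D H = mn (fun g => τ (E.ξ.character g)) H - mn (fun g => σ (E.ρ.character g)) H := by
      have : Fintype H := Fintype.ofFinite H
      rw [mn_eq, mn_eq, mn_eq, ← mul_sub, ← Finset.sum_sub_distrib]
      rfl
    rw [h1, rk_eq τ E.ξ H, rk_eq σ E.ρ H, Curve.sha]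
    push_cast
    rfl
  have hev : ∀ H : Subgroup G, Ev D H ↔ Even (E.sha H) := by
    intro H
    unfold Ev
    rw [hmn]
    constructor
    · rintro ⟨z, hz⟩
      have h1 : E.sha H = 2 * z := by exact_mod_cast hz
      rw [h1]
      exact even_two_mul z
    · rintro ⟨z, hz⟩
      refine ⟨z, ?_⟩
      rw [hz]
      push_cast
      ring
  have hpar : E.Parity ↔ Even (E.sha ⊤) := by
    unfold Curve.Parity
    rw [E.pparity]
    change (-1 : ℤ) ^ E.rank ⊤ = (-1) ^ E.selmer ⊤ ↔ _
    rw [Curve.sha]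
    rcases Nat.even_or_odd (E.rank ⊤) with h1 | h1 <;> rcases Nat.even_or_odd (E.selmer ⊤) with h2 | h2
    · rw [h1.neg_one_pow, h2.neg_one_pow]
      exact ⟨fun _ => ((Int.even_coe_nat _).mpr h2).sub ((Int.even_coe_nat _).mpr h1), fun _ => rfl⟩
    · rw [h1.neg_one_pow, h2.neg_one_pow]
      refine ⟨fun h => by norm_num at h, fun h => ?_⟩
      have h3 : Odd ((E.selmer ⊤ : ℤ) - E.rank ⊤) := ((Int.odd_coe_nat _).mpr h2).sub_even ((Int.even_coe_nat _).mpr h1)
      exact absurd h (Int.not_even_iff_odd.mpr h3)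
    · rw [h1.neg_one_pow, h2.neg_one_pow]
      refine ⟨fun h => by norm_num at h, fun h => ?_⟩
      have h3 : Odd ((E.selmer ⊤ : ℤ) - E.rank ⊤) := ((Int.even_coe_nat _).mpr h2).sub_odd ((Int.odd_coe_nat _).mpr h1)
      exact absurd h (Int.not_even_iff_odd.mpr h3)
    · rw [h1.neg_one_pow, h2.neg_one_pow]
      exact ⟨fun _ => ((Int.odd_coe_nat _).mpr h2).sub_odd ((Int.odd_coe_nat _).mpr h1), fun _ => rfl⟩
  refine ⟨?_, fun hE => ?_⟩
  · intro N _ a k hsol ha hk hN H hH
    rw [hpar, ← hev, ← hev H, tower_ev hD N hsol a k ha hk.1 (hDk k hk) hN H, hH]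
  · have h0 : ¬ Ev D ⊤ := fun h => hE (hpar.mpr ((hev ⊤).mp h))
    obtain ⟨U, ⟨C, hCU, hC, hcop, hnorm, hpow⟩, hodd, hmin, hcrit⟩ := crit hD h0
    refine ⟨U, C, Int.not_even_iff_odd.mp (fun h => hodd ((hev U).mpr h)), fun U' hU' => (hev U').mp (hmin U' hU'),
      hCU, hC, Nat.coprime_two_right.mp hcop, hnorm, hpow, ?_⟩
    intro q hq hqC k hk
    have hq2 : q ≠ 2 := by
      rintro rfl
      have h1 := Nat.dvd_gcd hqC dvd_rfl
      rw [hcop] at h1
      exact absurd (Nat.le_of_dvd one_pos h1) (by norm_num)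
    obtain ⟨m, hm, u, hu, huc⟩ := hcrit k hk.1 (hDk k hk) q hq hq2 (hqC.trans (Subgroup.card_dvd_of_le hCU))
    exact ⟨m, hm, u, hu, fun c hc hcq => huc c (hCU hc) hcq⟩

end Pool.Agent.Results.MP_577099_nt.CoranksOfSha
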