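import Pool.Agent.Run7.h460.QD.NumF
import Pool.Agent.Results.MP_6073f3_nt.CubicTwistsRankZero

/-!
# The parity conjecture for systems of cubic twists inside arbitrary dense sets

`E_n : y² + n y = x³` over `ℚ` (`3`-isogenous to `x³ + y³ = n`; `E_n` and `E_{n r³}` are isomorphic). `D`
runs over the family of the squarefree numbers prime to `3`, not `±1` modulo `9`, with exactly one prime
factor `≡ 2` modulo `3`. The multipliers are the cube-free numbers all of whose prime factors are `1`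
modulo `9`. `IsRootNumber n w`: for some `N > 0` the function `N^(s/2) (2 π)^(-s) Γ(s) L(E_n, s)` satisfies the
functional equation with the sign `w`. `Parity n`: the parity conjecture holds for `E_n`; more precisely
`L(E_n, s)` exists as an entire function, it is not zero at the centre, the rank is zero, and the root
number can only be `(-1)^0 = 1`.

* Let `A` be an arbitrary set of members of the family, of upper density at least `δ`, and `T` a finite set
  of multipliers. For all but at most `4 |T|² / ε²` multipliers `m` (a bound independent of `A`) the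
  `D ∈ A` such that the parity conjecture holds for all the curves `E_{D m t}`, `t ∈ T`, have upper density
  at least `δ c^|T| - ε`, `c = ∏_{i ≥ 1} (1 - 3^{-i}) = 0.5601...`.
* Every infinite set of multipliers contains different `m_0, m_1, ...` such that for every `n` the `D ∈ A` such
  that the parity conjecture holds for the `2^n - 1` curves `E_{D ∏_{i ∈ J} m_i}`, `J ⊆ {0, ..., n - 1}`
  nonempty, have positive upper density, if `A` has.
* For the whole family no exceptions are needed: the `D` such that the parity conjecture holds for all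
  `E_{D t}`, `t ∈ T`, have lower density at least `c^|T|`.

The finiteness of `E_n(ℚ)` and `L(E_n, 1) ≠ 0` come from the starting file `CubicTwistsRankZero` of
`MP_6073f3_nt` (helper703, helper419 and others), the joint law for `D` prime to the multipliers from the
starting project R432/JG. The passage to dense sets is the second moment method, after helper428. The
companion `MP_6073f3_nt/DenseSetsOfTwists` has the law of all the patterns of the `3`-parts.
-/

set_option autoImplicit false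

open scoped Classical
open Filter Topology

namespace Pool.Agent.Results.MP_577099_nt.ParityInDenseSets

open Pool.Agent.Results.MP_6073f3_nt.CubicTwistsRankZero (E rank IsL TrivialThree RankZero)

/-- The family: `D` is squarefree, prime to `3`, not `±1` modulo `9`, and has exactly one prime factor
congruent to `2` modulo `3`. -/
def Family (D : ℕ) : Prop :=
  Squarefree D ∧ ¬ 3 ∣ D ∧ D % 9 ≠ 1 ∧ D % 9 ≠ 8 ∧
    ∃ q : ℕ, q.Prime ∧ q % 3 = 2 ∧ q ∣ D ∧ ∀ p : ℕ, p.Prime → p ∣ D → p ≠ q → p % 3 = 1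

/-- The multipliers: cube-free numbers all of whose prime factors are `1` modulo `9`. -/
def IsMultiplier (m : ℕ) : Prop :=
  m ≠ 0 ∧ (∀ p : ℕ, p.Prime → ¬ p ^ 3 ∣ m) ∧ ∀ p : ℕ, p.Prime → p ∣ m → p % 9 = 1

/-- The cube-free part of `n`: the exponents are reduced modulo `3`. -/
noncomputable def cubeFreePart (n : ℕ) : ℕ := n.factorization.prod fun p e => p ^ (e % 3)

/-- The completed L-function. -/
noncomputable def completed (N : ℝ) (L : ℂ → ℂ) (s : ℂ) : ℂ :=
  (N : ℂ) ^ (s / 2) * (2 * Real.pi : ℂ) ^ (-s) * Complex.Gamma s * L s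

/-- `w` is the root number of `E_n`: the sign in the functional equation of the completed L-function
(centre `s = 1`) for some conductor `N`. -/
def IsRootNumber (n : ℕ) (w : ℂ) : Prop :=
  ∃ (N : ℝ) (L : ℂ → ℂ), 0 < N ∧ IsL n L ∧ ∀ s : ℂ, completed N L s = w * completed N L (2 - s)

/-- The parity conjecture holds for the curve `E_{n'}`, `n'` the cube-free part of `n`, in the form:
`L(E_{n'}, s)` is entire and not zero at `s = 1`, the rank is zero, and every root number is
`(-1)^rank`. -/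
def Parity (n : ℕ) : Prop :=
  (∃ L : ℂ → ℂ, IsL (cubeFreePart n) L ∧ L 1 ≠ 0) ∧ rank (cubeFreePart n) = 0 ∧
    Finite (E (cubeFreePart n)).toAffine.Point ∧
    ∀ w : ℂ, IsRootNumber (cubeFreePart n) w → (-1) ^ rank (cubeFreePart n) = w

/-- The number of the `D ≤ X` of the family that belong to `A`. -/
noncomputable def count (A : Set ℕ) (X : ℕ) : ℕ :=
  ((Finset.Icc 1 X).filter fun D => Family D ∧ D ∈ A).card

/-- The upper density of `A` in the family is at least `δ`. -/
def UpperDensity (A : Set ℕ) (δ : ℝ) : Prop :=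
  ∀ ε : ℝ, 0 < ε → ∃ᶠ X : ℕ in atTop, (δ - ε) * (count Set.univ X : ℝ) ≤ (count A X : ℝ)

/-- `c = ∏_{i ≥ 1} (1 - 3^{-i})`. -/
noncomputable def c : ℝ := ∏' i : ℕ, (1 - (1 / 3 : ℝ) ^ (i + 1))

section proof

open Run7.h460.JL.Mix (cn UD)
open Run7.h460.QD (Large)
open Run7.h460.QD.Q (SC cf IsMult IsNine cn_card cn_univ card_tendsto cls_cf cf_spec)
open Pool.Agent.R432.JG (Cl cl_iff)
open Pool.Agent.Y703.CT (Cls NoSplit)

theorem fam_iff (D : ℕ) : Family D ↔ Cl ∅ D := by
  rw [cl_iff]
  unfold Family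
  simp

theorem mult_iff (m : ℕ) : IsMultiplier m ↔ IsMult m := Iff.rfl

theorem empty_ok : ∀ q ∈ (∅ : Finset ℕ), q.Prime ∧ q % 9 = 1 := fun q hq =>
  absurd hq (Finset.notMem_empty q)

theorem count_eq (A : Set ℕ) (X : ℕ) : (count A X : ℝ) = cn (SC ∅ X) A :=
  (cn_card fam_iff A X).symm

theorem count_univ (X : ℕ) : (count Set.univ X : ℝ) = ((SC ∅ X).card : ℝ) :=
  (count_eq _ _).trans (cn_univ X)

theorem ud_iff (A : Set ℕ) (δ : ℝ) : UpperDensity A δ ↔ UD (SC ∅) A δ := by
  unfold UpperDensity UD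
  simp only [count_eq, cn_univ]

theorem crit {D : ℕ} (hD : Cls D) : TrivialThree D ↔ NoSplit D :=
  ((Pool.Agent.Results.MP_6073f3_nt.CubicTwistsRankZero.result.2.2.1 D
    ((Pool.Agent.Results.MP_6073f3_nt.CubicTwistsRankZero.class_iff D).2 hD)).2.1)

theorem parity_of {D n : ℕ} (hD : Family D) (hn : IsNine n) (h : NoSplit (cf (D * n))) :
    Parity (D * n) := by
  have hC := cls_cf ((fam_iff D).1 hD) hn
  obtain ⟨h1, h2, ⟨L, hL⟩, h3, -⟩ :=
    (Pool.Agent.Results.MP_6073f3_nt.CubicTwistsRankZero.result.2.2.1 _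
      ((Pool.Agent.Results.MP_6073f3_nt.CubicTwistsRankZero.class_iff _).2 hC)).2.2 ((crit hC).2 h)
  refine ⟨⟨L, hL, h3 L hL⟩, h1, h2, ?_⟩
  rintro w ⟨N, L', hN, hL', hfe⟩
  have h4 := hfe 1
  have e : (2 : ℂ) - 1 = 1 := by norm_num
  rw [e] at h4
  have hne : completed N L' 1 ≠ 0 := by
    unfold completed
    refine mul_ne_zero (mul_ne_zero (mul_ne_zero ?_ ?_) ?_) (h3 L' hL')
    · rw [Complex.cpow_def_of_ne_zero (by exact_mod_cast hN.ne')]
      exact Complex.exp_ne_zero _
    · rw [Complex.cpow_def_of_ne_zero (by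
        have := Real.pi_ne_zero
        exact_mod_cast mul_ne_zero two_ne_zero this)]
      exact Complex.exp_ne_zero _
    · rw [Complex.Gamma_one]
      exact one_ne_zero
  have h5 : (1 - w) * completed N L' 1 = 0 := by
    rw [sub_mul, one_mul, ← h4, sub_self]
  have h6 := (mul_eq_zero.1 h5).resolve_right hne
  have h1' : rank (cubeFreePart (D * n)) = 0 := h1
  rw [h1', pow_zero]
  linear_combination h6

end proof

open Run7.h460.JL.Mix (cn UD)
open Run7.h460.QD.Q (SC cf IsMult IsNine)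
open Pool.Agent.Y703.CT (NoSplit)

/-- **Main theorem.** -/
theorem result :
    (0.56 : ℝ) < c ∧ Tendsto (fun X => count Set.univ X) atTop atTop ∧
    -- the cube-free part
    (∀ n : ℕ, n ≠ 0 → ∃ r : ℕ, 0 < r ∧ n = cubeFreePart n * r ^ 3) ∧
    -- dense sets, with an explicit number of exceptions
    (∀ (A : Set ℕ) (δ : ℝ), UpperDensity A δ →
      ∀ T : Finset ℕ, (∀ t ∈ T, IsMultiplier t) → ∀ ε : ℝ, 0 < ε →
      ∀ F : Finset ℕ, (∀ m ∈ F, IsMultiplier m) → 4 * (T.card : ℝ) ^ 2 / ε ^ 2 < F.card →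
      ∃ m ∈ F, UpperDensity {D | D ∈ A ∧ ∀ t ∈ T, Parity (D * (m * t))} (δ * c ^ T.card - ε)) ∧
    -- sequences of multipliers
    (∀ A : Set ℕ, (∃ δ : ℝ, 0 < δ ∧ UpperDensity A δ) →
      ∀ M : Set ℕ, M.Infinite → (∀ m ∈ M, IsMultiplier m) →
      ∃ m : ℕ → ℕ, Function.Injective m ∧ (∀ i, m i ∈ M) ∧ ∀ n : ℕ, ∃ δ : ℝ, 0 < δ ∧
        UpperDensity {D | D ∈ A ∧ ∀ J ⊆ Finset.range n, J.Nonempty →
          Parity (D * ∏ i ∈ J, m i)} δ) ∧
    -- the whole family
    ∀ T : Finset ℕ, (∀ t ∈ T, IsMultiplier t) → ∀ ε : ℝ, 0 < ε → ∀ᶠ X in atTop,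
      (c ^ T.card - ε) * (count Set.univ X : ℝ) ≤ (count {D | ∀ t ∈ T, Parity (D * t)} X : ℝ) := by
  refine ⟨Pool.Agent.R432.JG.c3_gt, ?_, fun n hn => Run7.h460.QD.Q.cf_spec hn, ?_, ?_, ?_⟩
  · rw [← tendsto_natCast_atTop_iff (R := ℝ)]
    refine (Run7.h460.QD.Q.card_tendsto empty_ok).congr fun X => ?_
    rw [count_univ]
  · intro A δ hA T hT ε hε F hF hc
    obtain ⟨m, hm, h⟩ := Run7.h460.QD.Q.mix_nat empty_ok hT (Finset.Subset.refl T)
      ((ud_iff A δ).1 hA) hε hF hc
    refine ⟨m, hm, (ud_iff _ _).2 ?_⟩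
    have e : δ * c ^ T.card - ε = Pool.Agent.Y703.CX.c3 ^ T.card *
        (1 - Pool.Agent.Y703.CX.c3) ^ (T.card - T.card) * δ - ε := by
      rw [Nat.sub_self, pow_zero, mul_one]
      show δ * c ^ T.card - ε = c ^ T.card * δ - ε
      ring
    rw [e]
    refine Run7.h460.QD.Q.UD.congr' h fun X D hD hDA => ⟨hDA.1, fun t ht => ?_⟩
    exact parity_of ((fam_iff D).2 (Run7.h460.QD.Q.mem_SC hD))
      ((Run7.h460.QD.Q.IsMult.nine (hF m hm)).mul (Run7.h460.QD.Q.IsMult.nine (hT t ht)))
      ((hDA.2 t ht).2 ht)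
  · rintro A ⟨δ, hδ, hA⟩ M hM hMm
    obtain ⟨u, h1, h2, h3⟩ := Run7.h460.QD.Q.sub_nat empty_ok hM hMm ⟨δ, hδ, (ud_iff A δ).1 hA⟩
    refine ⟨u, h1, h2, fun n => ?_⟩
    obtain ⟨δ', h4, h5⟩ := h3 n (Finset.range n).powerset
    refine ⟨δ', h4, (ud_iff _ _).2 (Run7.h460.QD.Q.UD.congr' h5 fun X D hD hDA =>
      ⟨hDA.1, fun S hS hne => ?_⟩)⟩
    refine parity_of ((fam_iff D).2 (Run7.h460.QD.Q.mem_SC hD)) ?_
      ((hDA.2 S hS hne).2 (Finset.mem_powerset.2 hS))
    clear hDA hne hS
    induction S using Finset.induction_on with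
    | empty =>
      rw [Finset.prod_empty]
      exact ⟨one_ne_zero, fun p hp hd => absurd (Nat.dvd_one.1 hd) hp.one_lt.ne'⟩
    | insert a s ha ih =>
      rw [Finset.prod_insert ha]
      exact (Run7.h460.QD.Q.IsMult.nine (hMm _ (h2 a))).mul ih
  · intro T hT ε hε
    have h := Run7.h460.QD.Q.law_nat empty_ok hT (Finset.Subset.refl T)
    rw [Nat.sub_self, pow_zero, mul_one] at h
    have h1 := h.eventually (lt_mem_nhds (show Pool.Agent.Y703.CX.c3 ^ T.card - ε <
      Pool.Agent.Y703.CX.c3 ^ T.card by linarith))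
    filter_upwards [h1, Pool.Agent.R432.JG.ev_pos empty_ok] with X hX hX0
    have hX0' : (0 : ℝ) < ((SC ∅ X).card : ℝ) := hX0
    rw [lt_div_iff₀ hX0'] at hX
    rw [count_univ, count_eq]
    refine hX.le.trans (Run7.h460.QD.Q.cn_le fun D hD hg t ht => ?_)
    exact parity_of ((fam_iff D).2 (Run7.h460.QD.Q.mem_SC hD)) (Run7.h460.QD.Q.IsMult.nine (hT t ht))
      ((hg t ht).2 ht)

end Pool.Agent.Results.MP_577099_nt.ParityInDenseSets
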