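import Pool.Agent.Results.MP_92892c_nt.FixedNumberTwoPartX49
import Pool.Agent.Results.MP_e996df_nt.FixedNumberSqrtNegThree
import Pool.Agent.Run7.h268.FN.NegTwo

/-!
# The parity conjecture for the twists by the numbers with a FIXED number of prime factors, all of them from
# an ARBITRARY set of primes of positive density (three families, complex multiplication by
# `ℚ(√-7)`, `ℚ(√-2)` and `ℚ(√-3)`)

The parity conjecture says `(-1) ^ rank E(ℚ) = w`, `w` the sign in the functional equation of the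
completed L-function. `Parity W IsL`, for a curve `W` whose L-function (with its entire continuation) is
characterized by `IsL`: the rank is zero, the L-function is entire and not zero at the centre
`s = 1`, and every `w` for which the functional equation of `N^(s/2) (2 π)^(-s) Γ(s) L(s)` holds, for some
`N > 0`, is equal to `(-1) ^ rank`.

* `E7 D`: the quadratic twist of `X_0(49) : y² + x y = x³ - x² - 2 x - 1` by `D`, all primes dividing `D` are
  `1` modulo `4`; the split primes are those which split in `ℚ(√-7)`;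
* `E2 m : y² = x³ - 4 m x² + 2 m² x`, all primes dividing `m` are `1`, `3` or `5` modulo `8`; the split
  primes are those which are `1` modulo `8`;
* `E3 m : y² = x³ - 3 m x² + 3 m² x` (isomorphic to `y² = x³ + m³`), all primes dividing `m` are `1` modulo `4`;
  the split primes are those which are `1` modulo `12`.

Let `P k = ∏_{i < (k+1)/2} (1 - 2^{-(2i+1)})` (`1, 1/2, 1/2, 7/16, 7/16, …`), the proportion of the
invertible matrices among the symmetric `k` times `k` matrices over the field with two elements.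
Let `S` be any set of primes, `l ≥ 1`, and let a positive proportion of all primes be in `S` and not
split and, if `k > 0`, a positive proportion in `S` and split. Then the number of the squarefree
`m ≤ X` of the family with `k` split and `l` other prime factors, all in `S`, has the order of
magnitude `X (log log X)^(k+l-1) / log X`, and the parity conjecture holds for at least the
proportion `P k` of them, in each of the three families. If there are only split prime factors,
`-7` (for `E7`), `-3` (for `E3`) a fourth power modulo `b` of them and not modulo `r` of them,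
`r ≥ 1` (for `E2`: `b` of them are `1` and `r` are `9` modulo `16`), it holds for at least the proportion
`P (b + r - 1)` for odd `r` and `P (b + r - 2)` for even `r`.

The proof. The exact proportion of the 2-part of the formula in these families: helper268
(`FixedNumberTwoPartX49`, `FixedNumberSqrtNegThree`, `Run7/h268/FN/NegTwo`), for a single number the starting files
and helper555, helper26, helper135, helper289, helper741, helper843. A functional equation with the sign
`w` and a nonzero central value give `w = 1`.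
-/

set_option autoImplicit false

open Filter Topology

namespace Pool.Agent.Results.MP_577099_nt.ParityThinFamilies

/-- the rank of `W(ℚ)` -/
noncomputable def rank (W : WeierstrassCurve ℚ) : ℕ := Module.finrank ℤ W.toAffine.Point

/-- the completed L-function, for the conductor `N` -/
noncomputable def completed (N : ℝ) (L : ℂ → ℂ) (s : ℂ) : ℂ :=
  (N : ℂ) ^ (s / 2) * (2 * Real.pi : ℂ) ^ (-s) * Complex.Gamma s * L s

/-- the parity conjecture for `W`, with rank zero and a nonzero central value -/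
def Parity (W : WeierstrassCurve ℚ) (IsL : (ℂ → ℂ) → Prop) : Prop :=
  rank W = 0 ∧ Finite W.toAffine.Point ∧ (∃ L : ℂ → ℂ, IsL L ∧ L 1 ≠ 0) ∧
    ∀ (w : ℂ) (N : ℝ) (L : ℂ → ℂ), 0 < N → IsL L →
      (∀ s : ℂ, completed N L s = w * completed N L (2 - s)) → (-1) ^ rank W = w

/-- the number of the `m` with `1 ≤ m ≤ X` and `Q m` -/
noncomputable def count (Q : ℕ → Prop) (X : ℕ) : ℕ := Nat.card {m : ℕ // 1 ≤ m ∧ m ≤ X ∧ Q m}

/-- `F` has the order of magnitude `X (log log X)^(n-1) / log X`, and at least the proportion `a` of the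
`m` in `F` has the property `Q` -/
def Law (F Q : ℕ → Prop) (n : ℕ) (a : ℝ) : Prop :=
  (∃ (c C : ℝ) (X₀ : ℕ), 0 < c ∧ 0 < C ∧ ∀ X : ℕ, X₀ ≤ X →
    c * (X * Real.log (Real.log X) ^ (n - 1) / Real.log X) ≤ (count F X : ℝ) ∧
    (count F X : ℝ) ≤ C * (X * Real.log (Real.log X) ^ (n - 1) / Real.log X)) ∧
  ∀ ε : ℝ, 0 < ε → ∀ᶠ X : ℕ in atTop,
    (a - ε) * (count F X : ℝ) ≤ (count (fun m => F m ∧ Q m) X : ℝ)

/-- `P n = ∏_{i < (n+1)/2} (1 - 2^{-(2i+1)})` -/
noncomputable def P (n : ℕ) : ℝ :=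
  ∏ i ∈ Finset.range ((n + 1) / 2), (1 - (1 / 2 : ℝ) ^ (2 * i + 1))

/-- the proportion for the families with split prime factors only -/
noncomputable def P' (b r : ℕ) : ℝ := if Odd r then P (b + r - 1) else P (b + r - 2)

/-- the twist of `X_0(49)` -/
noncomputable abbrev E7 (D : ℕ) : WeierstrassCurve ℚ :=
  Pool.Agent.Results.MP_4a9ea6_nt.TwoPartTwistsX49.E D

/-- `L` is the entire continuation of the L-function of `E7 D` -/
def IsL7 (D : ℕ) (L : ℂ → ℂ) : Prop :=
  Differentiable ℂ L ∧ ∀ s : ℂ, 2 < s.re → L s = (E7 D).LSeries s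

/-- `y² = x³ - 4 m x² + 2 m² x` -/
noncomputable abbrev E2 (m : ℕ) : WeierstrassCurve ℚ :=
  Pool.Agent.Results.MP_92892c_nt.TwoPartTwistsSqrtNegTwo.E m

/-- `y² = x³ - 3 m x² + 3 m² x` -/
noncomputable abbrev E3 (m : ℕ) : WeierstrassCurve ℚ :=
  Pool.Agent.Results.MP_f50388_nt.TwoPartTwistsSqrtNegThree.E m

section proof

theorem entire_unique {f g : ℂ → ℂ} (hf : Differentiable ℂ f) (hg : Differentiable ℂ g) {c : ℝ}
    (h : ∀ s : ℂ, c < s.re → f s = g s) : f = g := by
  have hf' : AnalyticOnNhd ℂ f Set.univ := fun z _ => hf.analyticAt z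
  have hg' : AnalyticOnNhd ℂ g Set.univ := fun z _ => hg.analyticAt z
  refine hf'.eq_of_eventuallyEq hg' (z₀ := ((c + 1 : ℝ) : ℂ)) ?_
  have h1 : {s : ℂ | c < s.re} ∈ 𝓝 ((c + 1 : ℝ) : ℂ) :=
    (isOpen_lt continuous_const Complex.continuous_re).mem_nhds (by
      show c < ((c + 1 : ℝ) : ℂ).re
      rw [Complex.ofReal_re]
      linarith)
  filter_upwards [h1] with s hs
  exact h s hs

theorem rank_zero {W : WeierstrassCurve ℚ} (h : Finite W.toAffine.Point) : rank W = 0 := by
  unfold rank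
  refine Module.finrank_eq_zero_iff_isTorsion.2 fun {x} => ?_
  have hx : addOrderOf x ≠ 0 := (isOfFinAddOrder_of_finite x).addOrderOf_pos.ne'
  refine ⟨⟨(addOrderOf x : ℤ), mem_nonZeroDivisors_of_ne_zero (by exact_mod_cast hx)⟩, ?_⟩
  show (addOrderOf x : ℤ) • x = 0
  rw [natCast_zsmul]
  exact addOrderOf_nsmul_eq_zero x

theorem parity_of {W : WeierstrassCurve ℚ} {IsL : (ℂ → ℂ) → Prop} (h : Finite W.toAffine.Point)
    (hL : ∃ L : ℂ → ℂ, IsL L ∧ L 1 ≠ 0) (hu : ∀ L L' : ℂ → ℂ, IsL L → IsL L' → L = L') :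
    Parity W IsL := by
  refine ⟨rank_zero h, h, hL, ?_⟩
  obtain ⟨L₀, h1, h2⟩ := hL
  intro w N L hN hIs hfe
  rw [hu L L₀ hIs h1] at hfe
  have h4 := hfe 1
  have e : (2 : ℂ) - 1 = 1 := by norm_num
  rw [e] at h4
  have hne : completed N L₀ 1 ≠ 0 := by
    unfold completed
    refine mul_ne_zero (mul_ne_zero (mul_ne_zero ?_ ?_) ?_) h2
    · rw [Complex.cpow_def_of_ne_zero (by exact_mod_cast hN.ne')]
      exact Complex.exp_ne_zero _
    · rw [Complex.cpow_def_of_ne_zero (by
        have := Real.pi_ne_zero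
        exact_mod_cast mul_ne_zero two_ne_zero this)]
      exact Complex.exp_ne_zero _
    · rw [Complex.Gamma_one]
      exact one_ne_zero
  have h5 : (1 - w) * completed N L₀ 1 = 0 := by
    rw [sub_mul, one_mul, ← h4, sub_self]
  have h6 := (mul_eq_zero.1 h5).resolve_right hne
  rw [rank_zero h, pow_zero]
  linear_combination h6

theorem parity7 {D : ℕ} (h : Pool.Agent.Results.MP_4a9ea6_nt.TwoPartTwistsX49.TwoPart D) :
    Parity (E7 D) (IsL7 D) := by
  obtain ⟨h1, -, L, h2, h3, h4, -⟩ := h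
  exact parity_of h1 ⟨L, ⟨h2, h3⟩, h4⟩ fun L L' h5 h6 =>
    entire_unique h5.1 h6.1 (c := 2) fun s hs => (h5.2 s hs).trans (h6.2 s hs).symm

theorem parity2 {m : ℕ} (h : Pool.Agent.Results.MP_92892c_nt.TwoPartTwistsSqrtNegTwo.TwoPart m) :
    Parity (E2 m) (Pool.Agent.Results.MP_92892c_nt.TwoPartTwistsSqrtNegTwo.IsLFun m) := by
  obtain ⟨h1, -, L, h2, h4, -⟩ := h
  exact parity_of h1 ⟨L, h2, h4⟩ fun L L' h5 h6 =>
    entire_unique h5.1 h6.1 (c := 3 / 2) fun s hs => (h5.2 s hs).unique (h6.2 s hs)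

theorem parity3 {m : ℕ} (h : Pool.Agent.Results.MP_f50388_nt.TwoPartTwistsSqrtNegThree.TwoPart m) :
    Parity (E3 m) (Pool.Agent.Results.MP_f50388_nt.TwoPartTwistsSqrtNegThree.IsLFun m) := by
  obtain ⟨h1, -, L, h2, h4, -⟩ := h
  exact parity_of h1 ⟨L, h2, h4⟩ fun L L' h5 h6 =>
    entire_unique h5.1 h6.1 (c := 3 / 2) fun s hs => (h5.2 s hs).unique (h6.2 s hs)

theorem count_mono {Q Q' : ℕ → Prop} (h : ∀ m, Q m → Q' m) (X : ℕ) : count Q X ≤ count Q' X := by
  unfold count
  have : Finite {m : ℕ // 1 ≤ m ∧ m ≤ X ∧ Q' m} :=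
    (Set.finite_Iic X).subset fun m (hm : 1 ≤ m ∧ m ≤ X ∧ Q' m) => hm.2.1
  exact Nat.card_le_card_of_injective
    (fun m : {m : ℕ // 1 ≤ m ∧ m ≤ X ∧ Q m} =>
      (⟨m.1, m.2.1, m.2.2.1, h _ m.2.2.2⟩ : {m : ℕ // 1 ≤ m ∧ m ≤ X ∧ Q' m}))
    fun m m' h => Subtype.ext (congrArg (fun x : {m : ℕ // 1 ≤ m ∧ m ≤ X ∧ Q' m} => x.1) h)

theorem law_of {F T Q : ℕ → Prop} {n : ℕ} {a : ℝ}
    (h1 : ∃ (c C : ℝ) (X₀ : ℕ), 0 < c ∧ 0 < C ∧ ∀ X : ℕ, X₀ ≤ X →
      c * (X * Real.log (Real.log X) ^ (n - 1) / Real.log X) ≤ (count F X : ℝ) ∧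
      (count F X : ℝ) ≤ C * (X * Real.log (Real.log X) ^ (n - 1) / Real.log X))
    (h2 : Tendsto (fun X : ℕ => (count (fun D => F D ∧ T D) X : ℝ) / (count F X : ℝ)) atTop (𝓝 a))
    (h3 : ∀ m, T m → Q m) : Law F Q n a := by
  refine ⟨h1, fun ε hε => ?_⟩
  filter_upwards [h2.eventually (lt_mem_nhds (show a - ε < a by linarith))] with X hX
  refine le_trans ?_ (Nat.cast_le.2 (count_mono (fun m hm => ⟨hm.1, h3 m hm.2⟩) X) :
    (count (fun m => F m ∧ T m) X : ℝ) ≤ (count (fun m => F m ∧ Q m) X : ℝ))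
  rcases (Nat.cast_nonneg (α := ℝ) (count F X)).eq_or_lt with h0 | h0
  · rw [← h0, mul_zero]
    exact Nat.cast_nonneg _
  · rw [lt_div_iff₀ h0] at hX
    exact hX.le

end proof

open Pool.Agent.Results.MP_92892c_nt.FixedNumberTwoPartX49 in
open Pool.Agent.Results.MP_e996df_nt in
open Run7.h268.FN in
/-- **The parity conjecture in thin families.** -/
theorem result :
    -- the numbers `P n`
    (∀ n : ℕ, (Nat.card {M : Matrix (Fin n) (Fin n) (ZMod 2) // M.IsSymm ∧ M.det ≠ 0} : ℝ) =
      ParityThinFamilies.P n * Nat.card {M : Matrix (Fin n) (Fin n) (ZMod 2) // M.IsSymm}) ∧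
    -- the twists of `X_0(49)`
    ((∀ (S : Set ℕ) (k l : ℕ), 1 ≤ l → (0 < k → Dense S Splits) → Dense S (fun p => ¬ Splits p) →
        ParityThinFamilies.Law (Family S k l) (fun D => Parity (E7 D) (IsL7 D)) (k + l)
          (ParityThinFamilies.P k)) ∧
      (∀ (S : Set ℕ) (b r : ℕ), 1 ≤ r → (0 < b → Dense S fun p => Splits p ∧ Fourth p) →
        (Dense S fun p => Splits p ∧ ¬ Fourth p) →
        ParityThinFamilies.Law (SplitFamily S b r) (fun D => Parity (E7 D) (IsL7 D)) (b + r)
          (P' b r)) ∧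
      (∀ q c : ℕ, Nat.Coprime q 28 → Nat.Coprime c q →
        Dense {p | p % q = c % q} Splits ∧ Dense {p | p % q = c % q} fun p => ¬ Splits p)) ∧
    -- complex multiplication by `ℤ[√-2]`
    ((∀ (S : Set ℕ) (k l : ℕ), 1 ≤ l → (0 < k → NegTwo.Dense S fun p => p % 8 = 1) →
        NegTwo.Dense S (fun p => p % 8 = 3 ∨ p % 8 = 5) →
        ParityThinFamilies.Law (NegTwo.Family S k l)
          (fun m => Parity (E2 m)
            (Pool.Agent.Results.MP_92892c_nt.TwoPartTwistsSqrtNegTwo.IsLFun m)) (k + l)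
          (ParityThinFamilies.P k)) ∧
      (∀ (S : Set ℕ) (b r : ℕ), 1 ≤ r → (0 < b → NegTwo.Dense S fun p => p % 16 = 1) →
        (NegTwo.Dense S fun p => p % 16 = 9) →
        ParityThinFamilies.Law (NegTwo.SplitFamily S b r)
          (fun m => Parity (E2 m)
            (Pool.Agent.Results.MP_92892c_nt.TwoPartTwistsSqrtNegTwo.IsLFun m)) (b + r)
          (P' b r)) ∧
      (∀ q c : ℕ, Odd q → Nat.Coprime c q →
        NegTwo.Dense {p | p % q = c % q} (fun p => p % 8 = 1) ∧
        NegTwo.Dense {p | p % q = c % q} (fun p => p % 8 = 3 ∨ p % 8 = 5) ∧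
        NegTwo.Dense {p | p % q = c % q} (fun p => p % 16 = 1) ∧
        NegTwo.Dense {p | p % q = c % q} (fun p => p % 16 = 9))) ∧
    -- complex multiplication by `ℚ(√-3)`
    ((∀ (S : Set ℕ) (k l : ℕ), 1 ≤ l →
        (0 < k → FixedNumberSqrtNegThree.Dense S fun p => p % 12 = 1) →
        FixedNumberSqrtNegThree.Dense S (fun p => p % 12 = 5) →
        ParityThinFamilies.Law (FixedNumberSqrtNegThree.Family S k l)
          (fun m => Parity (E3 m)
            (Pool.Agent.Results.MP_f50388_nt.TwoPartTwistsSqrtNegThree.IsLFun m)) (k + l)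
          (ParityThinFamilies.P k)) ∧
      (∀ (S : Set ℕ) (b r : ℕ), 1 ≤ r →
        (0 < b → FixedNumberSqrtNegThree.Dense S fun p =>
          p % 12 = 1 ∧ FixedNumberSqrtNegThree.Fourth p) →
        (FixedNumberSqrtNegThree.Dense S fun p =>
          p % 12 = 1 ∧ ¬ FixedNumberSqrtNegThree.Fourth p) →
        ParityThinFamilies.Law (FixedNumberSqrtNegThree.SplitFamily S b r)
          (fun m => Parity (E3 m)
            (Pool.Agent.Results.MP_f50388_nt.TwoPartTwistsSqrtNegThree.IsLFun m)) (b + r)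
          (P' b r)) ∧
      (∀ q c : ℕ, Nat.Coprime q 6 → Nat.Coprime c q →
        FixedNumberSqrtNegThree.Dense {p | p % q = c % q} (fun p => p % 12 = 1) ∧
        FixedNumberSqrtNegThree.Dense {p | p % q = c % q} (fun p => p % 12 = 5))) := by
  have r7 := Pool.Agent.Results.MP_92892c_nt.FixedNumberTwoPartX49.result
  have r2 := Run7.h268.FN.NegTwo.result
  have r3 := Pool.Agent.Results.MP_e996df_nt.FixedNumberSqrtNegThree.result
  have key : ∀ b r : ℕ, 1 ≤ r → (if r = 0 then (0 : ℝ) else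
      if Odd r then ParityThinFamilies.P (b + r - 1) else ParityThinFamilies.P (b + r - 2)) =
      P' b r := fun b r hr => if_neg (by omega)
  refine ⟨r7.1, ⟨fun S k l h1 h2 h3 => ?_, fun S b r h1 h2 h3 => ?_, r7.2.2.2.2⟩,
    ⟨fun S k l h1 h2 h3 => ?_, fun S b r h1 h2 h3 => ?_, r2.2.2.2.2.2⟩,
    ⟨fun S k l h1 h2 h3 => ?_, fun S b r h1 h2 h3 => ?_, r3.2.2.2.2.2⟩⟩
  · have h := r7.2.2.1 S k l h1 h2 h3
    exact law_of h.1 h.2 fun m => parity7
  · have h := r7.2.2.2.1 S b r (by omega) h2 fun _ => h3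
    rw [← key b r h1]
    exact law_of h.1 h.2 fun m => parity7
  · have h := r2.2.2.1 S k l h1 h2 h3
    exact law_of h.1 h.2 fun m => parity2
  · have h := r2.2.2.2.1 S b r (by omega) h2 fun _ => h3
    rw [← key b r h1]
    exact law_of h.1 h.2 fun m => parity2
  · have h := r3.2.2.1 S k l h1 h2 h3
    exact law_of h.1 h.2 fun m => parity3
  · have h := r3.2.2.2.1 S b r (by omega) h2 fun _ => h3
    rw [← key b r h1]
    exact law_of h.1 h.2 fun m => parity3

end Pool.Agent.Results.MP_577099_nt.ParityThinFamilies
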