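import Pool.Agent.Run7.h238.J.Av
import Pool.Agent.Run7.h424.N15.Low
import Pool.Agent.Run7.h424.N15.Crit
import Pool.Agent.Run7.h843.G3
import Pool.Agent.Run7.h250.PL.Lf

/-!
# The parity conjecture for the quadratic twists of `X_0(15)`, `X_0(21)` and `X_0(24)`

For `N = 15, 21, 24` let `E_{N,d}` be the quadratic twist by `d` of `X_0(N)`, an elliptic curve over `ℚ`
without complex multiplication. `ParityZero N d`: the group `E_{N,d}(ℚ)` is finite, the Hasse-Weil
`L`-function of `E_{N,d}` is entire and not zero at the centre, and `(-1)^rank` is equal to the root number,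
in two forms: to every sign `w` in a functional equation of the completed `L`-function, and to `χ_d(-N)`,
the value of the formula `w(E_{N,d}) = χ_d(-N) w(X_0(N))` for the twist by `d` prime to `2 N`.

* The Hasse-Weil `L`-function of an elliptic curve over `ℚ` is unique: it does not depend on the minimal
  equations by which the Euler factors are computed.
* Let `n` be squarefree and in the residue classes of `N` (`23, 47` modulo `60`; `19, 31, 55` modulo
  `84`; `11` modulo `24`). Then `χ_{-n}(-N) = 1`, and `E_{N,-n}(ℚ)` is finite and `Ш(E_{N,-n}/ℚ)[2^∞] = 0`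
  if and only if `n` satisfies an elementary criterion. In this case `ParityZero N (-n)`.
* Take finitely many levels `N_i` and multipliers `a_i` (squarefree, `1` modulo `4`) and the class of the
  squarefree `n` such that all `a_i n` are in the residue classes of `N_i`; let `S` be the set of the
  multipliers and `η = ∏_{i ≥ 1} (1 - 2^{-i}) = 0.2888...`. The events `[E_{N_i,-a_i n}(ℚ) finite and
  Ш[2^∞] = 0]` have the exact joint law: the events for different multipliers are independent, each of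
  probability `η`. So, for every `j`, for at least the proportion `P(Bin(#S, η) ≥ j)` of the class the parity
  conjecture (`ParityZero`) holds simultaneously for all the curves with at least `j` of the multipliers;
  in particular for all the curves for a proportion at least `0.2887^#S` of the class, and for some of
  the curves for a proportion at least `1 - 0.7113^#S`.
* `ParityZero N d` holds for at least `0.75` percent of all the squarefree integers `d`, `N = 15, 21, 24`.

The proof uses, for each level, the complete 2-descent, the modular parametrization, an explicit formula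
of Gross and the joint law of the criteria, by the mixed moments of the kernels of several Rédei systems.
These are theorems of the teams of helper238 (`MP_1d384c_nt/ProductsOfTwistsJointLaw`), helper424, helper289,
helper555, helper843, helper741, helper209, helper89, helper135 and helper483. New here are the uniqueness of the
`L`-function (after the starting file `R433/MD/Local`), the root numbers and the law of the number of
the multipliers.
-/

set_option autoImplicit false

open Filter Topology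

namespace Pool.Agent.Results.MP_577099_nt.TwistsOfThreeLevels

open Pool.Agent.TH841.NF.D (Sha)
open WeierstrassCurve

/-- `M` is an integral Weierstrass equation of the elliptic curve `W` over `ℚ` -/
def IsModel (W : WeierstrassCurve ℚ) (M : WeierstrassCurve ℤ) : Prop :=
  ∃ C : VariableChange ℚ, C • W = M.map (Int.castRingHom ℚ)

/-- the equation `M` is minimal at `p`: no integral equation of the same curve has a discriminant
with a smaller `p`-adic valuation -/
def MinAt (M : WeierstrassCurve ℤ) (p : ℕ) : Prop :=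
  ∀ M' : WeierstrassCurve ℤ, IsModel (M.map (Int.castRingHom ℚ)) M' →
    padicValInt p M.Δ ≤ padicValInt p M'.Δ

/-- the number of solutions modulo `p` of the equation `M` -/
noncomputable def pts (M : WeierstrassCurve ℤ) (p : ℕ) : ℕ :=
  Nat.card {z : ZMod p × ZMod p // z.2 ^ 2 + M.a₁ * z.1 * z.2 + M.a₃ * z.2 =
    z.1 ^ 3 + M.a₂ * z.1 ^ 2 + M.a₄ * z.1 + M.a₆}

/-- the Euler factor at `p` of the equation `M` (minimal at `p`) -/
noncomputable def euler (M : WeierstrassCurve ℤ) (p : ℕ) (s : ℂ) : ℂ :=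
  (1 - ((p : ℂ) - pts M p) * (p : ℂ) ^ (-s) +
    if (p : ℤ) ∣ M.Δ then 0 else (p : ℂ) ^ (1 - 2 * s))⁻¹

/-- `L` is the Hasse-Weil `L`-function of `W` (centre `s = 1`): it is entire and, for `Re s > 3/2`, the
product of the Euler factors, computed with integral equations which are minimal at `p` -/
def IsLFunction (W : WeierstrassCurve ℚ) (L : ℂ → ℂ) : Prop :=
  Differentiable ℂ L ∧ ∃ M : Nat.Primes → WeierstrassCurve ℤ,
    (∀ p : Nat.Primes, IsModel W (M p) ∧ MinAt (M p) p) ∧
    ∀ s : ℂ, 3 / 2 < s.re → HasProd (fun p : Nat.Primes => euler (M p) p s) (L s)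

/-- the Mordell-Weil rank -/
noncomputable def rank (W : WeierstrassCurve ℚ) : ℕ := Module.finrank ℤ W.toAffine.Point

/-- the completed `L`-function -/
noncomputable def completed (N : ℝ) (L : ℂ → ℂ) (s : ℂ) : ℂ :=
  (N : ℂ) ^ (s / 2) * (2 * Real.pi : ℂ) ^ (-s) * Complex.Gamma s * L s

/-- `w` is the root number of `W`: the sign in the functional equation of the completed `L`-function,
for some conductor `N` -/
def IsRootNumber (W : WeierstrassCurve ℚ) (w : ℂ) : Prop :=
  ∃ (N : ℝ) (L : ℂ → ℂ), 0 < N ∧ IsLFunction W L ∧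
    ∀ s : ℂ, completed N L s = w * completed N L (2 - s)

/-- the group of rational points is finite and the 2-primary part of the Tate-Shafarevich group is
trivial -/
def TrivialTwo (W : WeierstrassCurve ℚ) : Prop :=
  Finite W.toAffine.Point ∧ ∀ (k : ℕ) (x : Sha W), 2 ^ k • x = 0 → x = 0

/-- `X_0(N) : y² = x (x + s) (x + t)` for `N = 15, 21, 24` -/
def st (N : ℕ) : ℤ × ℤ := if N = 15 then (-9, -25) else if N = 21 then (9, 16) else (1, 4)

/-- the quadratic twist by `d` of `X_0(N)`: `y² = x (x + s d) (x + t d)` -/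
def E (N : ℕ) (d : ℤ) : WeierstrassCurve ℚ :=
  { a₁ := 0, a₂ := (((st N).1 + (st N).2) * d : ℤ), a₃ := 0, a₄ := ((st N).1 * (st N).2 * d ^ 2 : ℤ),
    a₆ := 0 }

/-- `χ_d(-N)` for `N = 15, 21, 24` and a fundamental discriminant `d = 1` modulo `4` prime to `N`: the sign of
`d` times the Kronecker symbol `(d / N)`; note `(d / 24) = (d / 2)³ (d / 3)` -/
noncomputable def chi (N : ℕ) (d : ℤ) : ℤ :=
  (if d < 0 then -1 else 1) * if N = 24 then ZMod.χ₈ d ^ 3 * jacobiSym d 3 else jacobiSym d N

/-- the parity conjecture for `E_{N,d}`, with rank zero -/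
def ParityZero (N : ℕ) (d : ℤ) : Prop :=
  Finite (E N d).toAffine.Point ∧ rank (E N d) = 0 ∧
    (∃ L : ℂ → ℂ, IsLFunction (E N d) L ∧ L 1 ≠ 0) ∧
    (∀ w : ℂ, IsRootNumber (E N d) w → (-1) ^ rank (E N d) = w) ∧
    (-1) ^ rank (E N d) = chi N d

/-- the residue classes for the level `N` -/
def Residue (N m : ℕ) : Prop :=
  if N = 15 then m % 60 = 23 ∨ m % 60 = 47
  else if N = 21 then m % 84 = 19 ∨ m % 84 = 31 ∨ m % 84 = 55
  else m % 24 = 11

/-- the squarefree part of `a n`, for `a` and `n` squarefree -/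
def tw (a n : ℕ) : ℕ := a * n / (Nat.gcd a n) ^ 2

/-- the class of the levels `N` and multipliers `a` -/
def Class {g : ℕ} (N a : Fin g → ℕ) (n : ℕ) : Prop :=
  Squarefree n ∧ ∀ i, Residue (N i) (a i * n)

/-- the levels `N` and the multipliers `a` define a family of `g`-tuples of elliptic curves -/
def IsFamily {g : ℕ} (N a : Fin g → ℕ) : Prop :=
  0 < g ∧ (∀ i, (N i = 15 ∨ N i = 21 ∨ N i = 24) ∧ Squarefree (a i) ∧ a i % 4 = 1) ∧
    ∃ n, Class N a n

/-- the set of the multipliers -/
def mults {g : ℕ} (a : Fin g → ℕ) : Finset ℕ := Finset.univ.image a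

/-- whenever `b c = m`, where `b` is a square modulo all primes dividing `c` and `c` is a square modulo
all primes dividing `b`, then `b = 1` or `c = 1` -/
def Criterion (m : ℕ) : Prop :=
  ∀ b c : ℕ, b * c = m → (∀ p : ℕ, p.Prime → p ∣ c → IsSquare (b : ZMod p)) →
    (∀ p : ℕ, p.Prime → p ∣ b → IsSquare (c : ZMod p)) → b = 1 ∨ c = 1

/-- the number of the `n ≤ X` of the class with the property `Q` -/
noncomputable def num {g : ℕ} (N a : Fin g → ℕ) (Q : ℕ → Prop) (X : ℕ) : ℕ :=
  Nat.card {n : ℕ // n ≤ X ∧ Class N a n ∧ Q n}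

/-- the number of the squarefree integers `d` with `|d| < X` and with the property `Q` -/
noncomputable def numAll (Q : ℤ → Prop) (X : ℕ) : ℕ :=
  Nat.card {d : ℤ // |d| < X ∧ Squarefree d ∧ Q d}

/-- the constant `0.2888...` -/
noncomputable def η : ℝ := ∏' i : ℕ, (1 - (1 / 2 : ℝ) ^ (i + 1))

/-- `P(Bin(s, η) ≥ j)` -/
noncomputable def binTail (s j : ℕ) : ℝ :=
  ∑ t ∈ (Finset.range (s + 1)).filter fun t => j ≤ t, (s.choose t : ℝ) * η ^ t * (1 - η) ^ (s - t)

/-- the multipliers `m` in the family such that the parity conjecture (rank zero) holds for all the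
curves `E_{N_i,-m n}` with `a_i = m` -/
noncomputable def goodMults {g : ℕ} (N a : Fin g → ℕ) (n : ℕ) : Finset ℕ := by
  classical
  exact (mults a).filter fun m => ∀ i, a i = m → ParityZero (N i) (-(tw m n : ℤ))

section proof

open Pool.Agent.N969.P15 (Qc)
open Pool.Agent.Run7.h238.J

theorem crit_iff {n : ℕ} (h : Squarefree n) : Criterion n ↔ Qc n := Run7.h424.N15.crit_iff h

theorem triv_eq (N : ℕ) (d : ℤ) : TrivialTwo (E N d) ↔ Mix.Triv N d := Iff.rfl

/-! ### the curves -/

theorem disc (N : ℕ) (d : ℤ) (hd : d ≠ 0) : (E N d).Δ ≠ 0 := by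
  have hd' : (d : ℚ) ≠ 0 := by exact_mod_cast hd
  have e : (E N d).Δ = 16 * ((st N).1 * (st N).2 * ((st N).1 - (st N).2) * d ^ 3 : ℚ) ^ 2 := by
    unfold E WeierstrassCurve.Δ WeierstrassCurve.b₂ WeierstrassCurve.b₄ WeierstrassCurve.b₆
      WeierstrassCurve.b₈
    push_cast
    ring
  rw [e]
  refine mul_ne_zero (by norm_num) (pow_ne_zero _ (mul_ne_zero ?_ (pow_ne_zero _ hd')))
  unfold st
  split_ifs <;> norm_num

theorem chi_eq {N n : ℕ} (hN : N = 15 ∨ N = 21 ∨ N = 24) (h : Residue N n) :
    chi N (-(n : ℤ)) = 1 := by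
  have hn : 0 < n := by
    unfold Residue at h
    split_ifs at h <;> omega
  have hneg : -(n : ℤ) < 0 := by
    have : (0 : ℤ) < n := by exact_mod_cast hn
    linarith
  unfold chi
  rw [if_pos hneg]
  unfold Residue at h
  rcases hN with rfl | rfl | rfl
  · rw [if_pos rfl] at h
    rw [if_neg (by norm_num), jacobiSym.mod_left]
    rcases h with h | h
    · have e : (-(n : ℤ)) % ((15 : ℕ) : ℤ) = 7 := by omega
      rw [e]
      norm_num
    · have e : (-(n : ℤ)) % ((15 : ℕ) : ℤ) = 13 := by omega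
      rw [e]
      norm_num
  · rw [if_neg (by norm_num), if_pos rfl] at h
    rw [if_neg (by norm_num), jacobiSym.mod_left]
    rcases h with h | h | h
    · have e : (-(n : ℤ)) % ((21 : ℕ) : ℤ) = 2 := by omega
      rw [e]
      norm_num
    · have e : (-(n : ℤ)) % ((21 : ℕ) : ℤ) = 11 := by omega
      rw [e]
      norm_num
    · have e : (-(n : ℤ)) % ((21 : ℕ) : ℤ) = 8 := by omega
      rw [e]
      norm_num
  · rw [if_neg (by norm_num), if_neg (by norm_num)] at h
    rw [if_pos rfl, jacobiSym.mod_left]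
    have e : (-(n : ℤ)) % ((3 : ℕ) : ℤ) = 1 := by omega
    have e8 : ((-(n : ℤ) : ℤ) : ZMod 8) = 5 := by
      have h5 : (-(n : ℤ)) % 8 = 5 := by omega
      have h6 := ZMod.intCast_mod (-(n : ℤ)) 8
      have h7 : (-(n : ℤ)) % ((8 : ℕ) : ℤ) = 5 := h5
      rw [h7] at h6
      rw [← h6]
      norm_num
    rw [e, e8]
    have e9 : ZMod.χ₈ (5 : ZMod 8) = -1 := by decide
    rw [e9]
    norm_num

theorem finrank_zero_of {M : Type} [AddCommGroup M] [Module ℤ M] [Finite M] :
    Module.finrank ℤ M = 0 := by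
  refine Module.finrank_eq_zero_of_rank_eq_zero ?_
  rw [rank_eq_zero_iff]
  intro x
  refine ⟨(addOrderOf x : ℤ), by exact_mod_cast (addOrderOf_pos x).ne', ?_⟩
  have h := addOrderOf_nsmul_eq_zero x
  rw [← h]
  exact (Nat.cast_smul_eq_nsmul ℤ _ _)

theorem lf_unique {W : WeierstrassCurve ℚ} (hW : W.Δ ≠ 0) {L L' : ℂ → ℂ}
    (h : IsLFunction W L) (h' : IsLFunction W L') : L = L' :=
  Pool.Agent.Run7.h250.PL.IsLFunction.unique hW h h'

/-- the root number of a curve with `L(1) ≠ 0` -/
theorem root_one {W : WeierstrassCurve ℚ} (hW : W.Δ ≠ 0) {L : ℂ → ℂ} (h : IsLFunction W L)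
    (h1 : L 1 ≠ 0) {w : ℂ} (hw : IsRootNumber W w) : w = 1 := by
  obtain ⟨N, L', hN, hL', hfe⟩ := hw
  have e0 := lf_unique hW hL' h
  subst e0
  have h4 := hfe 1
  have e : (2 : ℂ) - 1 = 1 := by norm_num
  rw [e] at h4
  have hne : completed N L' 1 ≠ 0 := by
    unfold completed
    refine mul_ne_zero (mul_ne_zero (mul_ne_zero ?_ ?_) ?_) h1
    · rw [Complex.cpow_def_of_ne_zero (by exact_mod_cast hN.ne')]
      exact Complex.exp_ne_zero _
    · rw [Complex.cpow_def_of_ne_zero (by
        have := Real.pi_ne_zero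
        exact_mod_cast mul_ne_zero two_ne_zero this)]
      exact Complex.exp_ne_zero _
    · rw [Complex.Gamma_one]
      exact one_ne_zero
  have h5 : (1 - w) * completed N L' 1 = 0 := by
    rw [sub_mul, one_mul, ← h4, sub_self]
  have h6 := (mul_eq_zero.1 h5).resolve_right hne
  linear_combination -h6

/-- parity from the criterion -/
theorem parity_of {N m : ℕ} (hN : N = 15 ∨ N = 21 ∨ N = 24) (hm : Squarefree m)
    (hc : Residue N m) (hq : TrivialTwo (E N (-(m : ℤ)))) : ParityZero N (-(m : ℤ)) := by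
  have hm0 : (-(m : ℤ)) ≠ 0 := by
    have := hm.ne_zero
    omega
  have hQ : Qc m := (Mix.triv_iff hN hm hc).1 hq
  obtain ⟨L, hL, h1⟩ := Mix.exists_L hN hm hc hQ
  have hfin : Finite (E N (-(m : ℤ))).toAffine.Point := hq.1
  have hr : rank (E N (-(m : ℤ))) = 0 := finrank_zero_of
  refine ⟨hfin, hr, ⟨L, hL, h1⟩, fun w hw => ?_, ?_⟩
  · rw [hr, pow_zero]
    exact (root_one (disc N _ hm0) hL h1 hw).symm
  · rw [hr, pow_zero, chi_eq hN hc]

/-! ### the families -/

/-- the set of the pairs -/
def fam {g : ℕ} (N a : Fin g → ℕ) : Finset (ℕ × ℕ) := Finset.univ.image fun i => (N i, a i)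

theorem mem_fam {g : ℕ} {N a : Fin g → ℕ} {p : ℕ × ℕ} :
    p ∈ fam N a ↔ ∃ i, (N i, a i) = p := by
  unfold fam
  simp

theorem com_iff {g : ℕ} {N a : Fin g → ℕ} {n : ℕ} :
    Mix.Com (fam N a) n ↔ ∀ i, Residue (N i) (a i * n) := by
  unfold Mix.Com
  constructor
  · intro h i
    exact h (N i, a i) (mem_fam.2 ⟨i, rfl⟩)
  · rintro h p hp
    obtain ⟨i, rfl⟩ := mem_fam.1 hp
    exact h i

theorem fam_ne {g : ℕ} {N a : Fin g → ℕ} (h : 0 < g) : (fam N a).Nonempty :=
  ⟨_, mem_fam.2 ⟨⟨0, h⟩, rfl⟩⟩

theorem good {g : ℕ} {N a : Fin g → ℕ} (h : IsFamily N a) : Mix.Good (fam N a) := by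
  refine ⟨fam_ne h.1, ?_, ?_⟩
  · intro p hp
    obtain ⟨i, rfl⟩ := mem_fam.1 hp
    exact h.2.1 i
  · obtain ⟨n, hn⟩ := h.2.2
    exact Mix.com_cop (fam_ne h.1) (com_iff.2 hn.2)

theorem fam_snd {g : ℕ} (N a : Fin g → ℕ) : (fam N a).image Prod.snd = mults a := by
  unfold fam mults
  rw [Finset.image_image]
  rfl

/-- the pattern of the trivial 2-parts -/
def Pat {g : ℕ} (N a : Fin g → ℕ) (T : Finset ℕ) (n : ℕ) : Prop :=
  ∀ i, (TrivialTwo (E (N i) (-(tw (a i) n : ℤ))) ↔ a i ∈ T)

theorem num_eq {g : ℕ} (N a : Fin g → ℕ) (Q : ℕ → Prop)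
    [DecidablePred fun n : ℕ => Class N a n ∧ Q n] (X : ℕ) :
    num N a Q X = ((Finset.Icc 1 X).filter fun n => Class N a n ∧ Q n).card := by
  unfold num
  refine Nat.subtype_card _ fun n => ?_
  rw [Finset.mem_filter, Finset.mem_Icc]
  constructor
  · rintro ⟨⟨_, h1⟩, h2⟩
    exact ⟨h1, h2⟩
  · rintro ⟨h1, h2, h3⟩
    exact ⟨⟨Nat.pos_of_ne_zero h2.1.ne_zero, h1⟩, h2, h3⟩

theorem num_mono {g : ℕ} (N a : Fin g → ℕ) {P Q : ℕ → Prop} (h : ∀ n, Class N a n → P n → Q n)
    (X : ℕ) : num N a P X ≤ num N a Q X := by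
  classical
  rw [num_eq, num_eq]
  refine Finset.card_le_card fun n hn => ?_
  rw [Finset.mem_filter] at hn ⊢
  exact ⟨hn.1, hn.2.1, h n hn.2.1 hn.2.2⟩

/-- disjoint properties -/
theorem sum_num {g : ℕ} (N a : Fin g → ℕ) {ι : Type} (s : Finset ι) {P : ι → ℕ → Prop}
    {Q : ℕ → Prop} (hd : ∀ n, Class N a n → ∀ i ∈ s, ∀ j ∈ s, P i n → P j n → i = j)
    (h : ∀ n, Class N a n → ∀ i ∈ s, P i n → Q n) (X : ℕ) :
    ∑ i ∈ s, num N a (P i) X ≤ num N a Q X := by
  classical
  simp only [num_eq]
  rw [← Finset.card_biUnion]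
  · refine Finset.card_le_card fun n hn => ?_
    rw [Finset.mem_biUnion] at hn
    obtain ⟨i, hi, hn⟩ := hn
    rw [Finset.mem_filter] at hn ⊢
    exact ⟨hn.1, hn.2.1, h n hn.2.1 i hi hn.2.2⟩
  · intro i hi j hj hij
    rw [Function.onFun, Finset.disjoint_left]
    intro n hn hn'
    rw [Finset.mem_filter] at hn hn'
    exact hij (hd n hn.2.1 i hi j hj hn.2.2 hn'.2.2)

/-- **The joint law.** -/
theorem law {g : ℕ} {N a : Fin g → ℕ} (h : IsFamily N a) {T : Finset ℕ} (hT : T ⊆ mults a) :
    Tendsto (fun X : ℕ => (num N a (Pat N a T) X : ℝ) /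
      (num N a (fun _ => True) X : ℝ)) atTop
      (𝓝 (η ^ T.card * (1 - η) ^ ((mults a).card - T.card))) := by
  classical
  have h0 := Mix.law (good h) (T := T) (by rw [fam_snd]; exact hT)
  rw [fam_snd, Finset.card_sdiff_of_subset hT] at h0
  have hη : Pool.Agent.N916.GB.eta = η := rfl
  rw [hη] at h0
  refine h0.congr fun X => ?_
  have e1 : ((Finset.Icc 1 X).filter fun n => Squarefree n ∧ Mix.Com (fam N a) n ∧
      ∀ p ∈ fam N a, (Mix.Triv p.1 (-(Pool.Agent.Run7.h238.J.tw p.2 n : ℤ)) ↔ p.2 ∈ T)) =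
      (Finset.Icc 1 X).filter fun n => Class N a n ∧ Pat N a T n := by
    refine Finset.filter_congr fun n _ => ?_
    constructor
    · rintro ⟨h1, h2, h3⟩
      exact ⟨⟨h1, com_iff.1 h2⟩, fun i => h3 (N i, a i) (mem_fam.2 ⟨i, rfl⟩)⟩
    · rintro ⟨⟨h1, h2⟩, h3⟩
      refine ⟨h1, com_iff.2 h2, fun p hp => ?_⟩
      obtain ⟨i, rfl⟩ := mem_fam.1 hp
      exact h3 i
  have e2 : ((Finset.Icc 1 X).filter fun n => Squarefree n ∧ Mix.Com (fam N a) n) =
      (Finset.Icc 1 X).filter fun n => Class N a n ∧ True := by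
    refine Finset.filter_congr fun n _ => ?_
    constructor
    · rintro ⟨h1, h2⟩
      exact ⟨⟨h1, com_iff.1 h2⟩, trivial⟩
    · rintro ⟨⟨h1, h2⟩, _⟩
      exact ⟨h1, com_iff.2 h2⟩
  rw [num_eq, num_eq, ← e1, ← e2]

theorem class_pos {g : ℕ} {N a : Fin g → ℕ} (h : IsFamily N a) : ∃ c : ℝ, 0 < c ∧
    ∀ᶠ X : ℕ in atTop, c * X ≤ (num N a (fun _ => True) X : ℝ) := by
  classical
  obtain ⟨c, hc, h1⟩ := Mix.class_pos (good h)
  refine ⟨c, hc, ?_⟩
  filter_upwards [h1] with X hX
  refine hX.trans (le_of_eq ?_)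
  rw [num_eq]
  have e2 : ((Finset.Icc 1 X).filter fun n => Squarefree n ∧ Mix.Com (fam N a) n) =
      (Finset.Icc 1 X).filter fun n => Class N a n ∧ True := by
    refine Finset.filter_congr fun n _ => ?_
    constructor
    · rintro ⟨h1, h2⟩
      exact ⟨⟨h1, com_iff.1 h2⟩, trivial⟩
    · rintro ⟨⟨h1, h2⟩, _⟩
      exact ⟨h1, com_iff.2 h2⟩
  rw [← e2]

/-- the multipliers with trivial 2-parts are good -/
theorem sub_good {g : ℕ} {N a : Fin g → ℕ} (h : IsFamily N a) {n : ℕ} (hn : Class N a n)
    {T : Finset ℕ} (hT : T ⊆ mults a) (hp : Pat N a T n) : T ⊆ goodMults N a n := by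
  classical
  intro m hm
  unfold goodMults
  rw [Finset.mem_filter]
  refine ⟨hT hm, ?_⟩
  rintro i rfl
  have h1 := h.2.1 i
  have hs := (Pool.Agent.Run7.h424.J.tw_spec h1.2.1 hn.1).1
  exact parity_of h1.1 hs (Mix.cls_tw h1.2.1 hn.1 (hn.2 i)) ((hp i).2 hm)

theorem sum_tail {g : ℕ} {a : Fin g → ℕ} (j : ℕ) :
    ∑ T ∈ (mults a).powerset.filter (fun T => j ≤ T.card),
      η ^ T.card * (1 - η) ^ ((mults a).card - T.card) = binTail (mults a).card j := by
  classical
  unfold binTail
  rw [Finset.sum_filter, Finset.sum_filter, Finset.sum_powerset]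
  refine Finset.sum_congr rfl fun t ht => ?_
  have e : ∀ T ∈ (mults a).powersetCard t,
      (if j ≤ T.card then η ^ T.card * (1 - η) ^ ((mults a).card - T.card) else 0) =
      if j ≤ t then η ^ t * (1 - η) ^ ((mults a).card - t) else 0 := by
    intro T hT
    rw [(Finset.mem_powersetCard.1 hT).2]
  rw [Finset.sum_congr rfl e, Finset.sum_const, Finset.card_powersetCard, nsmul_eq_mul]
  split_ifs
  · ring
  · ring

/-- **The number of the good multipliers.** -/
theorem tail {g : ℕ} {N a : Fin g → ℕ} (h : IsFamily N a) (j : ℕ) {ε : ℝ} (hε : 0 < ε) :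
    ∀ᶠ X : ℕ in atTop, (binTail (mults a).card j - ε) * (num N a (fun _ => True) X : ℝ) ≤
      (num N a (fun n => j ≤ (goodMults N a n).card) X : ℝ) := by
  classical
  have h0 : Tendsto (fun X : ℕ => ∑ T ∈ (mults a).powerset.filter (fun T => j ≤ T.card),
      (num N a (Pat N a T) X : ℝ) / (num N a (fun _ => True) X : ℝ)) atTop
      (𝓝 (binTail (mults a).card j)) := by
    rw [← sum_tail j]
    refine tendsto_finsetSum _ fun T hT => law h ?_
    exact Finset.mem_powerset.1 (Finset.mem_filter.1 hT).1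
  obtain ⟨c, hc, h2⟩ := class_pos h
  filter_upwards [h0.eventually (lt_mem_nhds (sub_lt_self _ hε)), h2, eventually_gt_atTop 0]
    with X hX h3 h4
  have h5 : (0 : ℝ) < (num N a (fun _ => True) X : ℝ) := by
    have : (0 : ℝ) < X := by exact_mod_cast h4
    exact lt_of_lt_of_le (by positivity) h3
  rw [← Finset.sum_div, lt_div_iff₀ h5] at hX
  refine hX.le.trans ?_
  rw [← Nat.cast_sum]
  refine Nat.cast_le.2 (sum_num N a _ ?_ ?_ X)
  · intro n _ T hT T' hT' hP hP'
    have k1 := Finset.mem_powerset.1 (Finset.mem_filter.1 hT).1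
    have k2 := Finset.mem_powerset.1 (Finset.mem_filter.1 hT').1
    ext m
    constructor
    · intro hm
      obtain ⟨i, -, rfl⟩ := Finset.mem_image.1 (k1 hm)
      exact (hP' i).1 ((hP i).2 hm)
    · intro hm
      obtain ⟨i, -, rfl⟩ := Finset.mem_image.1 (k2 hm)
      exact (hP i).1 ((hP' i).2 hm)
  · intro n hn T hT hP
    exact (Finset.mem_filter.1 hT).2.trans (Finset.card_le_card
      (sub_good h hn (Finset.mem_powerset.1 (Finset.mem_filter.1 hT).1) hP))

theorem all_good {g : ℕ} {N a : Fin g → ℕ} {n : ℕ}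
    (h : (mults a).card ≤ (goodMults N a n).card) (i : Fin g) :
    ParityZero (N i) (-(tw (a i) n : ℤ)) := by
  classical
  have hsub : goodMults N a n ⊆ mults a := Finset.filter_subset _ _
  have e := Finset.eq_of_subset_of_card_le hsub h
  have hm : a i ∈ goodMults N a n := by
    rw [e]
    exact Finset.mem_image_of_mem _ (Finset.mem_univ i)
  unfold goodMults at hm
  rw [Finset.mem_filter] at hm
  exact hm.2 i rfl

theorem some_good {g : ℕ} {N a : Fin g → ℕ} {n : ℕ}
    (h : 1 ≤ (goodMults N a n).card) : ∃ i, ParityZero (N i) (-(tw (a i) n : ℤ)) := by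
  classical
  obtain ⟨m, hm⟩ := Finset.card_pos.1 h
  unfold goodMults at hm
  rw [Finset.mem_filter] at hm
  obtain ⟨i, -, rfl⟩ := Finset.mem_image.1 hm.1
  exact ⟨i, hm.2 i rfl⟩

theorem tail_top (s : ℕ) : binTail s s = η ^ s := by
  unfold binTail
  have e : (Finset.range (s + 1)).filter (fun t => s ≤ t) = {s} := by
    ext t
    rw [Finset.mem_filter, Finset.mem_range, Finset.mem_singleton]
    omega
  rw [e, Finset.sum_singleton, Nat.choose_self, Nat.sub_self, pow_zero]
  ring

theorem tail_one (s : ℕ) : binTail s 1 = 1 - (1 - η) ^ s := by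
  unfold binTail
  have h := (Commute.all η (1 - η)).add_pow s
  rw [add_sub_cancel, one_pow, Finset.sum_range_succ'] at h
  rw [Finset.sum_filter, Finset.sum_range_succ']
  rw [if_neg (by norm_num)]
  simp only [pow_zero, Nat.choose_zero_right, Nat.cast_one, one_mul, mul_one, Nat.sub_zero] at h
  rw [add_zero]
  have e : ∀ k ∈ Finset.range s, (if 1 ≤ k + 1 then
      (s.choose (k + 1) : ℝ) * η ^ (k + 1) * (1 - η) ^ (s - (k + 1)) else 0) =
      η ^ (k + 1) * (1 - η) ^ (s - (k + 1)) * (s.choose (k + 1) : ℝ) := by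
    intro k _
    rw [if_pos (by omega)]
    ring
  rw [Finset.sum_congr rfl e]
  linarith

/-! ### all twists -/

open Run7.h238.G15 (Dd)
open Run7.h424.N15 (Cc)

theorem numAll_eq (Q : ℤ → Prop) [DecidablePred Q] (X : ℕ) :
    numAll Q X = ((Dd X).filter fun d => Q d).card := by
  classical
  unfold numAll
  refine Nat.subtype_card _ fun d => ?_
  rw [Finset.mem_filter, Dd, Finset.mem_filter, Finset.mem_Ioo, abs_lt]
  tauto

theorem numAll_true (X : ℕ) : numAll (fun _ => True) X = (Dd X).card := by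
  classical
  rw [numAll_eq, Finset.filter_true]

theorem lim_Qc {N M b : ℕ} (h8 : 8 ∣ M) (hM : 0 < M) (hper : ∀ n, Residue N n ↔ Residue N (n % M))
    (hb : Residue N b) (hbM : b.Coprime M) :
    Tendsto (fun Y : ℕ => (Cc (Residue N) Qc Y : ℝ) / (Cc (Residue N) (fun _ => True) Y : ℝ)) atTop
    (𝓝 η) := by
  classical
  have h := Pool.Agent.Run7.h843.G.dens_Qc M h8 hM (Residue N) hper (fun n hn => Mix.cls4 hn) b hb hbM
  refine h.congr fun Y => ?_
  unfold Cc
  simp only [and_true]

open Pool.Agent.N873.F15.Dn (ep)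

theorem ep_prime {N : ℕ} {S : Finset ℕ} (h : N.primeFactors = S) :
    ep N = ∏ p ∈ S, (1 - 1 / (p : ℝ) ^ 2) := by
  unfold ep
  rw [h]

theorem pf60 : (60 : ℕ).primeFactors = {2, 3, 5} := by
  have e : (60 : ℕ) = 2 ^ 2 * (3 * 5) := by norm_num
  rw [e, Nat.primeFactors_mul (by norm_num) (by norm_num), Nat.primeFactors_mul (by norm_num)
    (by norm_num), Nat.primeFactors_prime_pow (by norm_num) Nat.prime_two,
    Nat.Prime.primeFactors Nat.prime_three, Nat.Prime.primeFactors (by norm_num)]
  rfl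

theorem pf84 : (84 : ℕ).primeFactors = {2, 3, 7} := by
  have e : (84 : ℕ) = 2 ^ 2 * (3 * 7) := by norm_num
  rw [e, Nat.primeFactors_mul (by norm_num) (by norm_num), Nat.primeFactors_mul (by norm_num)
    (by norm_num), Nat.primeFactors_prime_pow (by norm_num) Nat.prime_two,
    Nat.Prime.primeFactors Nat.prime_three, Nat.Prime.primeFactors (by norm_num)]
  rfl

theorem pf24 : (24 : ℕ).primeFactors = {2, 3} := by
  have e : (24 : ℕ) = 2 ^ 3 * 3 := by norm_num
  rw [e, Nat.primeFactors_mul (by norm_num) (by norm_num),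
    Nat.primeFactors_prime_pow (by norm_num) Nat.prime_two,
    Nat.Prime.primeFactors Nat.prime_three]
  rfl

/-- a positive proportion of all the quadratic twists -/
theorem all_twists {N : ℕ} (hN : N = 15 ∨ N = 21 ∨ N = 24) : ∀ᶠ X : ℕ in atTop,
    0.0075 * (numAll (fun _ => True) X : ℝ) ≤ (numAll (fun d => ParityZero N d) X : ℝ) := by
  classical
  have hη1 : 0.2887 < η := Pool.Agent.N916.GB.eta_bounds.1
  have key : ∀ n : ℕ, Squarefree n → Residue N n → Qc n → ParityZero N (-n) := fun n hs hc hq =>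
    parity_of hN hs hc ((Mix.triv_iff hN hs hc).2 hq)
  have h1 : ∀ᶠ X : ℕ in atTop, 0.0075 * ((Dd X).card : ℝ) ≤
      (((Dd X).filter fun d => ParityZero N d).card : ℝ) := by
    rcases hN with rfl | rfl | rfl
    · refine Run7.h424.N15.lowerG (N := 60) (by norm_num) {23, 47} (by decide)
        ⟨23, by decide⟩ (C := Residue 15) (fun n => by
          unfold Residue
          rw [if_pos rfl]
          simp only [Finset.mem_insert, Finset.mem_singleton])
        (lim_Qc (M := 120) (b := 23) (by norm_num) (by norm_num) (fun n => by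
          unfold Residue
          rw [if_pos rfl, if_pos rfl]
          omega) (by unfold Residue; norm_num) (by norm_num)) key ?_
      rw [ep_prime pf60, Finset.prod_insert (by decide), Finset.prod_insert (by decide),
        Finset.prod_singleton]
      have e : (({23, 47} : Finset ℕ).card : ℝ) = 2 := by
        have : ({23, 47} : Finset ℕ).card = 2 := by decide
        rw [this]
        norm_num
      rw [e]
      norm_num
      norm_num at hη1
      linarith
    · refine Run7.h424.N15.lowerG (N := 84) (by norm_num) {19, 31, 55} (by decide)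
        ⟨19, by decide⟩ (C := Residue 21) (fun n => by
          unfold Residue
          rw [if_neg (by norm_num), if_pos rfl]
          simp only [Finset.mem_insert, Finset.mem_singleton])
        (lim_Qc (M := 168) (b := 19) (by norm_num) (by norm_num) (fun n => by
          unfold Residue
          rw [if_neg (by norm_num), if_pos rfl, if_neg (by norm_num), if_pos rfl]
          omega) (by unfold Residue; norm_num) (by norm_num)) key ?_
      rw [ep_prime pf84, Finset.prod_insert (by decide), Finset.prod_insert (by decide),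
        Finset.prod_singleton]
      have e : (({19, 31, 55} : Finset ℕ).card : ℝ) = 3 := by
        have : ({19, 31, 55} : Finset ℕ).card = 3 := by decide
        rw [this]
        norm_num
      rw [e]
      norm_num
      norm_num at hη1
      linarith
    · refine Run7.h424.N15.lowerG (N := 24) (by norm_num) {11} (by decide)
        ⟨11, by decide⟩ (C := Residue 24) (fun n => by
          unfold Residue
          rw [if_neg (by norm_num), if_neg (by norm_num)]
          simp only [Finset.mem_singleton])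
        (lim_Qc (M := 24) (b := 11) (by norm_num) (by norm_num) (fun n => by
          unfold Residue
          rw [if_neg (by norm_num), if_neg (by norm_num), if_neg (by norm_num),
            if_neg (by norm_num)]
          omega) (by unfold Residue; norm_num) (by norm_num)) key ?_
      rw [ep_prime pf24, Finset.prod_insert (by decide), Finset.prod_singleton,
        Finset.card_singleton]
      norm_num
      norm_num at hη1
      linarith
  filter_upwards [h1] with X hX
  rw [numAll_true, numAll_eq]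
  exact hX

end proof

/-- the levels of the example -/
def N₃ : Fin 3 → ℕ := ![15, 24, 21]

/-- the multipliers of the example -/
def a₃ : Fin 3 → ℕ := ![1, 1, 5]

theorem family_ex : IsFamily N₃ a₃ := by
  refine ⟨by norm_num, ?_, ?_⟩
  · intro i
    fin_cases i
    · exact ⟨Or.inl rfl, squarefree_one, rfl⟩
    · exact ⟨Or.inr (Or.inr rfl), squarefree_one, rfl⟩
    · exact ⟨Or.inr (Or.inl rfl), Nat.prime_five.squarefree, rfl⟩
  · refine ⟨107, (show Nat.Prime 107 by norm_num).squarefree, ?_⟩
    intro i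
    fin_cases i
    · show Residue 15 (1 * 107)
      unfold Residue
      norm_num
    · show Residue 24 (1 * 107)
      unfold Residue
      norm_num
    · show Residue 21 (5 * 107)
      unfold Residue
      norm_num

/-- **The parity conjecture for the quadratic twists of `X_0(15)`, `X_0(21)` and `X_0(24)`.** -/
theorem result :
    -- the `L`-function is unique
    (∀ (W : WeierstrassCurve ℚ) (L L' : ℂ → ℂ), W.Δ ≠ 0 → IsLFunction W L → IsLFunction W L' →
      L = L') ∧
    -- single curves
    (∀ N n : ℕ, (N = 15 ∨ N = 21 ∨ N = 24) → Squarefree n → Residue N n →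
      (E N (-(n : ℤ))).Δ ≠ 0 ∧ chi N (-(n : ℤ)) = 1 ∧
      (TrivialTwo (E N (-(n : ℤ))) ↔ Criterion n) ∧
      (TrivialTwo (E N (-(n : ℤ))) → ParityZero N (-(n : ℤ)))) ∧
    -- families
    (∀ (g : ℕ) (N a : Fin g → ℕ), IsFamily N a →
      (∀ T ⊆ mults a, Tendsto (fun X : ℕ =>
        (num N a (fun n => ∀ i, (TrivialTwo (E (N i) (-(tw (a i) n : ℤ))) ↔ a i ∈ T)) X : ℝ) /
          (num N a (fun _ => True) X : ℝ)) atTop
        (𝓝 (η ^ T.card * (1 - η) ^ ((mults a).card - T.card)))) ∧
      (∀ (j : ℕ) (ε : ℝ), 0 < ε → ∀ᶠ X : ℕ in atTop,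
        (binTail (mults a).card j - ε) * (num N a (fun _ => True) X : ℝ) ≤
          (num N a (fun n => j ≤ (goodMults N a n).card) X : ℝ)) ∧
      (∀ᶠ X : ℕ in atTop, 0.2887 ^ (mults a).card * (num N a (fun _ => True) X : ℝ) ≤
        (num N a (fun n => ∀ i, ParityZero (N i) (-(tw (a i) n : ℤ))) X : ℝ)) ∧
      (∀ᶠ X : ℕ in atTop, (1 - 0.7113 ^ (mults a).card) * (num N a (fun _ => True) X : ℝ) ≤
        (num N a (fun n => ∃ i, ParityZero (N i) (-(tw (a i) n : ℤ))) X : ℝ)) ∧
      ∃ c : ℝ, 0 < c ∧ ∀ᶠ X : ℕ in atTop,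
        c * X ≤ (num N a (fun n => ∀ i, ParityZero (N i) (-(tw (a i) n : ℤ))) X : ℝ)) ∧
    -- all twists
    (∀ N : ℕ, (N = 15 ∨ N = 21 ∨ N = 24) → ∀ᶠ X : ℕ in atTop,
      0.0075 * (numAll (fun _ => True) X : ℝ) ≤ (numAll (fun d => ParityZero N d) X : ℝ)) ∧
    0.2887 < η ∧ η < 0.2889 ∧
    IsFamily N₃ a₃ ∧ (mults a₃).card = 2 := by
  classical
  have hη1 : 0.2887 < η := Pool.Agent.N916.GB.eta_bounds.1
  have hη2 : η < 0.2889 := Pool.Agent.N916.GB.eta_bounds.2
  refine ⟨fun W L L' hW h h' => lf_unique hW h h', ?_, ?_, fun N hN => all_twists hN, hη1, hη2,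
    family_ex, by decide⟩
  · intro N n hN hs hc
    refine ⟨disc N _ ?_, chi_eq hN hc, ?_, parity_of hN hs hc⟩
    · have := hs.ne_zero
      omega
    · exact (Pool.Agent.Run7.h238.J.Mix.triv_iff hN hs hc).trans (crit_iff hs).symm
  · intro g N a h
    have hne : (mults a).card ≠ 0 := by
      rw [Finset.card_ne_zero]
      exact ⟨_, Finset.mem_image_of_mem _ (Finset.mem_univ ⟨0, h.1⟩)⟩
    have hlow : ∀ᶠ X : ℕ in atTop, 0.2887 ^ (mults a).card * (num N a (fun _ => True) X : ℝ) ≤
        (num N a (fun n => ∀ i, ParityZero (N i) (-(tw (a i) n : ℤ))) X : ℝ) := by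
      have hlt : (0.2887 : ℝ) ^ (mults a).card < η ^ (mults a).card :=
        pow_lt_pow_left₀ hη1 (by norm_num) hne
      filter_upwards [tail h (mults a).card (sub_pos.2 hlt)] with X hX
      rw [tail_top, sub_sub_cancel] at hX
      refine hX.trans ?_
      exact_mod_cast num_mono N a (fun n _ hn => all_good hn) X
    refine ⟨fun T hT => law h hT, fun j ε hε => tail h j hε, hlow, ?_, ?_⟩
    · have hlt : (1 - η) ^ (mults a).card < (0.7113 : ℝ) ^ (mults a).card :=
        pow_lt_pow_left₀ (by linarith) (by linarith) hne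
      filter_upwards [tail h 1 (sub_pos.2 hlt)] with X hX
      rw [tail_one] at hX
      have e : 1 - (1 - η) ^ (mults a).card - (0.7113 ^ (mults a).card - (1 - η) ^ (mults a).card) =
          1 - (0.7113 : ℝ) ^ (mults a).card := by ring
      rw [e] at hX
      refine hX.trans ?_
      exact_mod_cast num_mono N a (fun n _ hn => some_good hn) X
    · obtain ⟨c, hc, h1⟩ := class_pos h
      refine ⟨0.2887 ^ (mults a).card * c, by positivity, ?_⟩
      filter_upwards [h1, hlow] with X hX hX'
      refine le_trans ?_ hX'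
      rw [mul_assoc]
      exact mul_le_mul_of_nonneg_left hX (by positivity)

end Pool.Agent.Results.MP_577099_nt.TwistsOfThreeLevels
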